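import Pool.Agent.W312.WT.Stm

/-!
WT-SLen: disjoint intervals inside `[a, b]`.
-/

set_option autoImplicit false

namespace Pool.Agent.W391.WT

open MeasureTheory

theorem proof_SLen : Pool.Agent.W312.WT.SLen := by
  intro ι F s e a b hab h1 h2
  have hd : Set.PairwiseDisjoint (F : Set ι) (fun i => Set.Ioo (s i) (e i)) := by
    intro i hi j hj hij
    change Disjoint (Set.Ioo (s i) (e i)) (Set.Ioo (s j) (e j))
    rw [Set.disjoint_left]
    rintro x ⟨hx1, hx2⟩ ⟨hx3, hx4⟩
    rcases h2 i hi j hj hij with h | h <;> linarith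
  have hv := measure_biUnion_finset (μ := (volume : Measure ℝ)) hd
    (fun i _ => measurableSet_Ioo)
  have hle : (volume : Measure ℝ) (⋃ i ∈ F, Set.Ioo (s i) (e i)) ≤ volume (Set.Icc a b) := by
    apply measure_mono
    intro x hx
    simp only [Set.mem_iUnion] at hx
    obtain ⟨i, hi, hx1, hx2⟩ := hx
    obtain ⟨h3, h4, h5⟩ := h1 i hi
    exact ⟨by linarith, by linarith⟩
  rw [hv, Real.volume_Icc] at hle
  simp only [Real.volume_Ioo] at hle
  rw [← ENNReal.ofReal_sum_of_nonneg (fun i hi => by linarith [(h1 i hi).2.1])] at hle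
  exact (ENNReal.ofReal_le_ofReal_iff (by linarith)).1 hle

end Pool.Agent.W391.WT


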